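import Pool.Agent.Lib_helper62.AP.Defs

/-!
# The Euler product over the orbits of a permutation
-/

set_option autoImplicit false

namespace Pool.Agent.AP

open Function

section hasE

variable {B : Type} [CommRing B]

/-- The power series `E = 1 + ...` with `t E' = -(∑_(r ≥ 1) s r t ^ r) E`. -/
def LogD (s : ℕ → B) (E : PowerSeries B) : Prop :=
  PowerSeries.constantCoeff E = 1 ∧ PowerSeries.X * PowerSeries.derivative B E =
    -(PowerSeries.mk fun r => if r = 0 then 0 else s r) * E

/-- The `s r` are the power sums of a sequence with coefficients in `B`. -/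
def HasE (s : ℕ → B) : Prop := ∃ E, LogD s E

theorem hasE_congr {s s' : ℕ → B} (h : ∀ r, 1 ≤ r → s r = s' r) (hs : HasE s) : HasE s' := by
  obtain ⟨E, h1, h2⟩ := hs
  refine ⟨E, h1, ?_⟩
  rw [h2]
  congr 3
  funext r
  rcases Nat.eq_zero_or_pos r with hr | hr
  · rw [if_pos hr, if_pos hr]
  · rw [if_neg hr.ne', if_neg hr.ne', h r hr]

theorem hasE_zero : HasE (fun _ => (0 : B)) := by
  refine ⟨1, map_one _, ?_⟩
  have h1 : PowerSeries.derivative B (1 : PowerSeries B) = 0 := by
    exact Derivation.map_one_eq_zero _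
  have h2 : (PowerSeries.mk fun r => if r = 0 then (0 : B) else 0) = 0 := by
    ext r
    rw [PowerSeries.coeff_mk, ite_self, map_zero]
  rw [h1, h2, mul_zero, neg_zero, zero_mul]

theorem hasE_add {s s' : ℕ → B} (hs : HasE s) (hs' : HasE s') : HasE (fun r => s r + s' r) := by
  obtain ⟨E, h1, h2⟩ := hs
  obtain ⟨E', h1', h2'⟩ := hs'
  refine ⟨E * E', by rw [map_mul, h1, h1', one_mul], ?_⟩
  have h3 : (PowerSeries.mk fun r => if r = 0 then (0 : B) else s r + s' r) =
      (PowerSeries.mk fun r => if r = 0 then (0 : B) else s r) +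
      (PowerSeries.mk fun r => if r = 0 then (0 : B) else s' r) := by
    ext r
    rw [map_add, PowerSeries.coeff_mk, PowerSeries.coeff_mk, PowerSeries.coeff_mk]
    split_ifs
    · rw [add_zero]
    · rfl
  have h4 : PowerSeries.derivative B (E * E') =
      E * PowerSeries.derivative B E' + E' * PowerSeries.derivative B E := by
    rw [Derivation.leibniz, smul_eq_mul, smul_eq_mul]
  rw [h3, h4]
  linear_combination E * h2' + E' * h2

theorem hasE_neg {s : ℕ → B} (hs : HasE s) : HasE (fun r => -s r) := by
  obtain ⟨E, h1, h2⟩ := hs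
  set E' : PowerSeries B := PowerSeries.invOfUnit E 1 with hE'
  have h3 : E * E' = 1 := PowerSeries.mul_invOfUnit E 1 (by rw [h1]; rfl)
  refine ⟨E', ?_, ?_⟩
  · have h4 := congrArg PowerSeries.constantCoeff h3
    rw [map_mul, h1, one_mul, map_one] at h4
    exact h4
  · have h5 : PowerSeries.derivative B (E * E') = 0 := by
      rw [h3]
      exact Derivation.map_one_eq_zero _
    rw [Derivation.leibniz, smul_eq_mul, smul_eq_mul] at h5
    have h6 : (PowerSeries.mk fun r => if r = 0 then (0 : B) else -s r) =
        -(PowerSeries.mk fun r => if r = 0 then (0 : B) else s r) := by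
      ext r
      rw [map_neg, PowerSeries.coeff_mk, PowerSeries.coeff_mk]
      split_ifs
      · rw [neg_zero]
      · rfl
    rw [h6]
    linear_combination (PowerSeries.X * E') * h5 - E' * E' * h2 -
      (PowerSeries.X * PowerSeries.derivative B E') * h3 +
      (PowerSeries.mk fun r => if r = 0 then (0 : B) else s r) * E' * h3

theorem hasE_nsmul {s : ℕ → B} (hs : HasE s) (n : ℕ) : HasE (fun r => (n : B) * s r) := by
  induction n with
  | zero =>
    refine hasE_congr (fun r _ => ?_) hasE_zero
    rw [Nat.cast_zero, zero_mul]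
  | succ n ih =>
    refine hasE_congr (fun r _ => ?_) (hasE_add ih hs)
    rw [Nat.cast_succ, add_mul, one_mul]

theorem hasE_zsmul {s : ℕ → B} (hs : HasE s) (n : ℤ) : HasE (fun r => (n : B) * s r) := by
  obtain ⟨k, rfl | rfl⟩ := n.eq_nat_or_neg
  · refine hasE_congr (fun r _ => ?_) (hasE_nsmul hs k)
    rw [Int.cast_natCast]
  · refine hasE_congr (fun r _ => ?_) (hasE_neg (hasE_nsmul hs k))
    rw [Int.cast_neg, Int.cast_natCast, neg_mul]

theorem hasE_sum {ι : Type} (t : Finset ι) {s : ι → ℕ → B} (h : ∀ i ∈ t, HasE (s i)) :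
    HasE (fun r => ∑ i ∈ t, s i r) := by
  classical
  induction t using Finset.induction_on with
  | empty =>
    refine hasE_congr (fun r _ => ?_) hasE_zero
    rw [Finset.sum_empty]
  | insert a t ha ih =>
    refine hasE_congr (fun r _ => ?_) (hasE_add (h a (Finset.mem_insert_self a t))
      (ih fun i hi => h i (Finset.mem_insert_of_mem hi)))
    rw [Finset.sum_insert ha]

/-- One orbit. -/
theorem hasE_single {l : ℕ} (hl : 0 < l) (W : B) :
    HasE (fun r => if l ∣ r then (l : B) * W ^ (r / l) else 0) := by
  refine ⟨1 - PowerSeries.C W * PowerSeries.X ^ l, ?_, ?_⟩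
  · rw [map_sub, map_one, map_mul, map_pow, PowerSeries.constantCoeff_X, zero_pow hl.ne', mul_zero,
      sub_zero]
  · ext j
    rcases j with _ | j
    · rw [PowerSeries.coeff_zero_X_mul, PowerSeries.coeff_zero_eq_constantCoeff_apply, map_mul,
        map_neg, PowerSeries.constantCoeff_mk, if_pos rfl, neg_zero, zero_mul]
    · have hc : ∀ i : ℕ, PowerSeries.coeff i (1 - PowerSeries.C W * PowerSeries.X ^ l) =
          (if i = 0 then 1 else 0) - W * (if i = l then 1 else 0) := by
        intro i
        rw [map_sub, PowerSeries.coeff_one, PowerSeries.coeff_C_mul, PowerSeries.coeff_X_pow]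
      rw [PowerSeries.coeff_succ_X_mul, PowerSeries.coeff_derivative, hc, mul_sub, mul_one,
        map_sub]
      have h2 : PowerSeries.coeff (j + 1) (-(PowerSeries.mk fun r => if r = 0 then (0 : B) else
          if l ∣ r then (l : B) * W ^ (r / l) else 0)) =
          -(if l ∣ j + 1 then (l : B) * W ^ ((j + 1) / l) else 0) := by
        rw [map_neg, PowerSeries.coeff_mk, if_neg (Nat.succ_ne_zero j)]
      rw [h2, ← mul_assoc, mul_comm (-(PowerSeries.mk fun r => if r = 0 then (0 : B) else
          if l ∣ r then (l : B) * W ^ (r / l) else 0)) (PowerSeries.C W), mul_assoc,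
        PowerSeries.coeff_C_mul, PowerSeries.coeff_mul_X_pow']
      rw [if_neg (Nat.succ_ne_zero j)]
      by_cases hlj : l ≤ j + 1
      · rw [if_pos hlj, map_neg, PowerSeries.coeff_mk]
        rcases hlj.eq_or_lt with h | h
        · subst h
          rw [Nat.sub_self, if_pos rfl, if_pos rfl, if_pos dvd_rfl, Nat.div_self (Nat.succ_pos j),
            pow_one]
          push_cast
          ring
        · rw [if_neg h.ne', if_neg (Nat.sub_pos_of_lt h).ne']
          by_cases hd : l ∣ j + 1
          · have hd' : l ∣ j + 1 - l := Nat.dvd_sub hd dvd_rfl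
            rw [if_pos hd, if_pos hd']
            have h5 : (j + 1) / l = (j + 1 - l) / l + 1 := by
              conv_lhs => rw [← Nat.sub_add_cancel hlj]
              rw [Nat.add_div_right _ hl]
            rw [h5, pow_succ]
            ring
          · have hd' : ¬ l ∣ j + 1 - l := by
              intro h6
              apply hd
              have h7 := Nat.dvd_add h6 (dvd_refl l)
              rwa [Nat.sub_add_cancel hlj] at h7
            rw [if_neg hd, if_neg hd']
            ring
      · rw [if_neg hlj]
        have h8 : ¬ j + 1 = l := fun h => hlj h.ge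
        have h9 : ¬ l ∣ j + 1 := fun h => hlj (Nat.le_of_dvd (Nat.succ_pos j) h)
        rw [if_neg h8, if_neg h9]
        ring

theorem hasE_nrec {s : ℕ → B} (hs : HasE s) : ∃ E : ℕ → B, ∀ J, NRec s E J := by
  obtain ⟨E, h1, h2⟩ := hs
  refine ⟨fun j => PowerSeries.coeff j E, fun J => ⟨?_, ?_⟩⟩
  · change PowerSeries.coeff 0 E = 1
    rw [PowerSeries.coeff_zero_eq_constantCoeff_apply]
    exact h1
  · intro j hj _
    obtain ⟨i, rfl⟩ : ∃ i, j = i + 1 := ⟨j - 1, by omega⟩
    have h3 := congrArg (PowerSeries.coeff (i + 1)) h2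
    rw [PowerSeries.coeff_succ_X_mul, PowerSeries.coeff_derivative, neg_mul, map_neg,
      PowerSeries.coeff_mul, Finset.Nat.sum_antidiagonal_eq_sum_range_succ_mk,
      Finset.sum_range_succ'] at h3
    simp only [PowerSeries.coeff_mk, if_true, zero_mul, add_zero] at h3
    rw [mul_comm, Nat.cast_succ, h3]
    congr 1
    apply Finset.sum_congr rfl
    intro a ha
    have h9 : i + 1 - (a + 1) = i + 1 - 1 - a := by omega
    rw [if_neg (Nat.succ_ne_zero a), h9]

end hasE

/-- BLOCK ORB. The weighted numbers of fixed points of the powers of a permutation. -/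
theorem block_ORB {B : Type} [CommRing B] {X : Type} [Fintype X] [DecidableEq X] (f : X → X)
    (hf : Injective f) (W : X → B) (hW : ∀ x, W (f x) = W x) :
    HasE (fun r => ∑ x, if f^[r] x = x then W x ^ (r / minimalPeriod f x) else 0) := by
  classical
  have hper : ∀ x, x ∈ periodicPts f := fun x => hf.mem_periodicPts x
  have hpos : ∀ x, 0 < minimalPeriod f x := fun x => minimalPeriod_pos_of_mem_periodicPts (hper x)
  have hWi : ∀ (i : ℕ) (x : X), W (f^[i] x) = W x := by
    intro i
    induction i with
    | zero => intro x; rfl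
    | succ i ih => intro x; rw [iterate_succ_apply', hW, ih]
  have hli : ∀ (i : ℕ) (x : X), minimalPeriod f (f^[i] x) = minimalPeriod f x := fun i x =>
    minimalPeriod_apply_iterate (hper x) i
  let g : X → Finset X := fun x => (Finset.range (minimalPeriod f x)).image fun i => f^[i] x
  have hg : ∀ x y, y ∈ g x ↔ ∃ n, f^[n] x = y := by
    intro x y
    constructor
    · intro h
      obtain ⟨i, -, hi⟩ := Finset.mem_image.mp h
      exact ⟨i, hi⟩
    · rintro ⟨n, rfl⟩
      refine Finset.mem_image.mpr ⟨n % minimalPeriod f x,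
        Finset.mem_range.mpr (Nat.mod_lt _ (hpos x)), ?_⟩
      exact iterate_mod_minimalPeriod_eq
  have hgg : ∀ x y, y ∈ g x → g y = g x := by
    intro x y hy
    obtain ⟨i, rfl⟩ := (hg x y).mp hy
    ext z
    rw [hg, hg]
    constructor
    · rintro ⟨n, rfl⟩
      exact ⟨n + i, iterate_add_apply f n i x⟩
    · rintro ⟨n, rfl⟩
      have h1 : i ≤ minimalPeriod f x * i := Nat.le_mul_of_pos_left i (hpos x)
      refine ⟨n + (minimalPeriod f x * i - i), ?_⟩
      rw [← iterate_add_apply, add_assoc, Nat.sub_add_cancel h1, iterate_add_apply]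
      congr 1
      exact ((isPeriodicPt_minimalPeriod f x).mul_const i)
  have hgs : ∀ x, x ∈ g x := fun x => (hg x x).mpr ⟨0, rfl⟩
  refine hasE_congr (s := fun r => ∑ y ∈ Finset.univ.image g, ∑ x with g x = y,
    if f^[r] x = x then W x ^ (r / minimalPeriod f x) else 0) (fun r _ => ?_) ?_
  · exact Finset.sum_fiberwise_of_maps_to (fun x _ => Finset.mem_image_of_mem g (Finset.mem_univ x)) _
  · apply hasE_sum
    intro y hy
    obtain ⟨x₀, -, rfl⟩ := Finset.mem_image.mp hy
    refine hasE_congr (fun r _ => ?_) (hasE_single (hpos x₀) (W x₀))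
    have h1 : (Finset.univ.filter fun x => g x = g x₀) = g x₀ := by
      ext x
      rw [Finset.mem_filter]
      constructor
      · rintro ⟨-, h⟩
        rw [← h]
        exact hgs x
      · intro h
        exact ⟨Finset.mem_univ _, hgg x₀ x h⟩
    rw [h1]
    have h2 : ∀ x ∈ g x₀, (if f^[r] x = x then W x ^ (r / minimalPeriod f x) else 0) =
        if minimalPeriod f x₀ ∣ r then W x₀ ^ (r / minimalPeriod f x₀) else 0 := by
      intro x hx
      obtain ⟨i, rfl⟩ := (hg x₀ x).mp hx
      have h3 : f^[r] (f^[i] x₀) = f^[i] x₀ ↔ minimalPeriod f x₀ ∣ r := by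
        rw [← hli i x₀, ← isPeriodicPt_iff_minimalPeriod_dvd]
        rfl
      rw [hWi, hli]
      by_cases h4 : minimalPeriod f x₀ ∣ r
      · rw [if_pos (h3.mpr h4), if_pos h4]
      · rw [if_neg (fun h => h4 (h3.mp h)), if_neg h4]
    rw [Finset.sum_congr rfl h2, Finset.sum_const]
    have h5 : (g x₀).card = minimalPeriod f x₀ := by
      rw [Finset.card_image_of_injOn, Finset.card_range]
      intro i hi j hj hij
      rw [Finset.coe_range] at hi hj
      exact iterate_injOn_Iio_minimalPeriod hi hj hij
    rw [h5, nsmul_eq_mul]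
    split_ifs
    · rfl
    · rw [mul_zero]

end Pool.Agent.AP
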