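import Pool.Agent.Lib_helper58.KT.Frob

/-!
# All primes: Newton's recursion and the Euler product
-/

set_option autoImplicit false

namespace Pool.Agent.AP

open NumberField Polynomial
open Pool.Agent.TT Pool.Agent.TB Pool.Agent.TF Pool.Agent.RF Pool.Agent.TU Pool.Agent.KT

/-- Newton's recursion up to `d`: the `E j` are the coefficients of
`∏ (1 - x t)` if the `s r` are the power sums of the `x`. -/
def NRec {C : Type} [CommRing C] (s E : ℕ → C) (d : ℕ) : Prop :=
  E 0 = 1 ∧ ∀ j, 1 ≤ j → j ≤ d → (j : C) * E j = -∑ i ∈ Finset.range j, s (i + 1) * E (j - 1 - i)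

/-- The polynomial `∑ E j X ^ (d - j)`. -/
noncomputable def fpoly {C : Type} [CommRing C] (E : ℕ → C) (d : ℕ) : C[X] :=
  ∑ j ∈ Finset.range (d + 1), Polynomial.C (E j) * X ^ (d - j)

/-- The value of a polynomial in two variables at `(y, w)`. -/
noncomputable def ev2 {C : Type} [CommRing C] (y w : C) : (ℤ[X])[X] →+* C :=
  eval₂RingHom (eval₂RingHom (Int.castRingHom C) y) w

end Pool.Agent.AP
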